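import Mathlib
import Pool.Agent.Zk46.FD.Defs
import Pool.Agent.H505R2.DivB

/-!
# Assembly of the module SQ (for helper46)
-/

set_option autoImplicit false

namespace Pool.Agent.Zk55.FD46

open Finset Pool.Agent.Zk46.FD

/-- the number of the palindromes divisible by `p ^ 2` -/
noncomputable def N (b M p : ℕ) : ℝ := ((A b M).filter fun a => p ^ 2 ∣ pal b M a).card

theorem N_nonneg (b M p : ℕ) : 0 ≤ N b M p := Nat.cast_nonneg _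

/-- union bound -/
theorem union_bd (b M : ℕ) (S : Finset ℕ) (Q : (Fin (M + 1) → ℕ) → Prop) [DecidablePred Q]
    (h : ∀ a ∈ A b M, Q a → ∃ p ∈ S, p ^ 2 ∣ pal b M a) :
    (((A b M).filter Q).card : ℝ) ≤ ∑ p ∈ S, N b M p := by
  have h1 : (A b M).filter Q ⊆ S.biUnion fun p => (A b M).filter fun a => p ^ 2 ∣ pal b M a := by
    intro a ha
    rw [mem_filter] at ha
    obtain ⟨p, hp, hd⟩ := h a ha.1 ha.2
    rw [mem_biUnion]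
    exact ⟨p, hp, mem_filter.2 ⟨ha.1, hd⟩⟩
  have h2 := (card_le_card h1).trans card_biUnion_le
  unfold N
  exact_mod_cast h2

/-- the sum of the inverse squares -/
theorem sum_sq (S : Finset ℕ) (X : ℝ) (hX : 1 ≤ X) (h : ∀ p ∈ S, X ≤ p) :
    ∑ p ∈ S, 1 / (p : ℝ) ^ 2 ≤ 2 / X := by
  have hm1 : 1 ≤ ⌈X⌉₊ := Nat.one_le_ceil_iff.2 (by linarith)
  have hsub : S ⊆ Ioo (⌈X⌉₊ - 1) (S.sup id + 1) := by
    intro p hp
    have h1 : ⌈X⌉₊ ≤ p := Nat.ceil_le.2 (h p hp)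
    have h2 : p ≤ S.sup id := Finset.le_sup (f := id) hp
    rw [mem_Ioo]
    omega
  have h3 := sum_Ioo_inv_sq_le (α := ℝ) (⌈X⌉₊ - 1) (S.sup id + 1)
  have h4 : (((⌈X⌉₊ - 1 : ℕ) : ℝ) + 1) = ⌈X⌉₊ := by
    rw [Nat.cast_sub hm1]; push_cast; ring
  rw [h4] at h3
  calc ∑ p ∈ S, 1 / (p : ℝ) ^ 2 ≤ ∑ p ∈ Ioo (⌈X⌉₊ - 1) (S.sup id + 1), 1 / (p : ℝ) ^ 2 :=
        sum_le_sum_of_subset_of_nonneg hsub fun _ _ _ => by positivity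
    _ = ∑ p ∈ Ioo (⌈X⌉₊ - 1) (S.sup id + 1), ((p : ℝ) ^ 2)⁻¹ := by simp only [one_div]
    _ ≤ 2 / (⌈X⌉₊ : ℝ) := h3
    _ ≤ 2 / X := div_le_div_of_nonneg_left (by norm_num) (by linarith) (Nat.le_ceil X)

/-- the number of the elements -/
theorem card_le_of (S : Finset ℕ) (Y : ℝ) (h : ∀ p ∈ S, 1 ≤ p ∧ (p : ℝ) ≤ Y) (hY : 0 ≤ Y) :
    (S.card : ℝ) ≤ Y := by
  have hsub : S ⊆ Icc 1 ⌊Y⌋₊ := by
    intro p hp
    rw [mem_Icc]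
    exact ⟨(h p hp).1, Nat.le_floor (h p hp).2⟩
  have h1 := card_le_card hsub
  rw [Nat.card_Icc] at h1
  calc (S.card : ℝ) ≤ (⌊Y⌋₊ : ℝ) := by exact_mod_cast (by omega : S.card ≤ ⌊Y⌋₊)
    _ ≤ Y := Nat.floor_le hY

theorem sum_UV (S : Finset ℕ) (X Y U V : ℝ) (hX : 1 ≤ X) (hY : 0 ≤ Y) (hS : ∀ p ∈ S, X ≤ p ∧ (p : ℝ) ≤ Y)
    (hU : 0 ≤ U) (hV : 0 ≤ V) (f : ℕ → ℝ) (hf : ∀ p ∈ S, f p ≤ U / (p : ℝ) ^ 2 + V) :
    ∑ p ∈ S, f p ≤ U * (2 / X) + V * Y := by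
  calc ∑ p ∈ S, f p ≤ ∑ p ∈ S, (U * (1 / (p : ℝ) ^ 2) + V) :=
        sum_le_sum fun p hp => by
          have := hf p hp
          rwa [mul_one_div]
    _ = U * ∑ p ∈ S, 1 / (p : ℝ) ^ 2 + S.card * V := by
        rw [sum_add_distrib, ← mul_sum, sum_const, nsmul_eq_mul]
    _ ≤ U * (2 / X) + V * Y := by
        have h1 := sum_sq S X hX fun p hp => (hS p hp).1
        have h2 := card_le_of S Y (fun p hp => ⟨by
          have h3 : (1 : ℝ) ≤ p := hX.trans (hS p hp).1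
          exact_mod_cast h3, (hS p hp).2⟩) hY
        have h3 := mul_le_mul_of_nonneg_left h1 hU
        have h4 := mul_le_mul_of_nonneg_right h2 hV
        linarith

/-- the range `b^(c+e) ≤ p ≤ b^(c+1-e)` -/
theorem range1 (h1 : S_SQ1) (b M c : ℕ) (e : ℝ) (hb : 2 ≤ b) (hM : 1 ≤ M) (hc : c ≤ M) (he : 0 < e)
    (S : Finset ℕ)
    (hS : ∀ p ∈ S, p.Coprime b ∧ (b : ℝ) ^ ((c : ℝ) + e) ≤ p ∧ (p : ℝ) ≤ (b : ℝ) ^ ((c : ℝ) + 1 - e)) :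
    ∑ p ∈ S, N b M p ≤ 3 * (b : ℝ) ^ ((M : ℝ) + 1 - e) := by
  have hB : (0 : ℝ) < b := by positivity
  have hB1 : (1 : ℝ) ≤ b := by exact_mod_cast (by omega : 1 ≤ b)
  have hX : 1 ≤ (b : ℝ) ^ ((c : ℝ) + e) := Real.one_le_rpow hB1 (by positivity)
  have hk : M - c ≤ M := by omega
  have hexp : 2 * M + 1 - (M - c) = M + 1 + c := by omega
  have key := sum_UV S ((b : ℝ) ^ ((c : ℝ) + e)) ((b : ℝ) ^ ((c : ℝ) + 1 - e)) ((b : ℝ) ^ (M + 1 + c))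
    ((b : ℝ) ^ (M - c)) hX (by positivity) (fun p hp => (hS p hp).2) (by positivity) (by positivity)
    (N b M) (fun p hp => by
      have hp1 : 1 ≤ p := by
        have : (1 : ℝ) ≤ p := hX.trans (hS p hp).2.1
        exact_mod_cast this
      have := h1 b M (M - c) p hb hM hk hp1 (hS p hp).1
      rwa [hexp] at this)
  refine key.trans (le_of_eq ?_)
  have e1 : (b : ℝ) ^ (M + 1 + c) = (b : ℝ) ^ ((M : ℝ) + 1 + c) := by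
    rw [← Real.rpow_natCast]; push_cast; rfl
  have e2 : (b : ℝ) ^ (M - c) = (b : ℝ) ^ ((M : ℝ) - c) := by
    rw [← Real.rpow_natCast, Nat.cast_sub hc]
  rw [e1, e2, ← Real.rpow_add hB]
  have e3 : (b : ℝ) ^ ((M : ℝ) + 1 + c) * (2 / (b : ℝ) ^ ((c : ℝ) + e)) = 2 * (b : ℝ) ^ ((M : ℝ) + 1 - e) := by
    rw [mul_div_assoc', div_eq_iff (by positivity), mul_assoc, ← Real.rpow_add hB, mul_comm]
    congr 2
    ring
  rw [e3]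
  have e4 : (M : ℝ) - c + ((c : ℝ) + 1 - e) = (M : ℝ) + 1 - e := by ring
  rw [e4]
  ring

/-- the range `b^(c-e) ≤ p ≤ b^(c+e)`, `Far` -/
theorem range2 (h2 : S_SQ2) (b M c g Δ : ℕ) (e : ℝ) (hb : 2 ≤ b) (hM : 1 ≤ M) (hc1 : 1 ≤ c) (hc : c ≤ M)
    (he : 0 < e) (he1 : e ≤ 1 / 32) (hg1 : 1 ≤ g) (hgb : g ≤ b) (hΔ1 : 1 ≤ Δ)
    (hg : (b : ℝ) ^ (1 / 2 : ℝ) / 2 ≤ g) (hΔ : (b : ℝ) ^ (1 / 4 : ℝ) / 2 ≤ Δ)
    (S : Finset ℕ)
    (hS : ∀ p ∈ S, p.Coprime b ∧ Far b g Δ p ∧ (b : ℝ) ^ ((c : ℝ) - e) ≤ p ∧ (p : ℝ) ≤ (b : ℝ) ^ ((c : ℝ) + e)) :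
    ∑ p ∈ S, N b M p ≤ 14 * (b : ℝ) ^ ((M : ℝ) + 1 - e) := by
  have hB : (0 : ℝ) < b := by positivity
  have hB1 : (1 : ℝ) ≤ b := by exact_mod_cast (by omega : 1 ≤ b)
  have hc1' : (1 : ℝ) ≤ c := by exact_mod_cast hc1
  have hX : 1 ≤ (b : ℝ) ^ ((c : ℝ) - e) := Real.one_le_rpow hB1 (by linarith)
  have hk : M - c < M := by omega
  have hexp : 2 * M - 2 * (M - c) = 2 * c := by omega
  have hg0 : (0 : ℝ) < g := by exact_mod_cast hg1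
  have hΔ0 : (0 : ℝ) < Δ := by exact_mod_cast hΔ1
  have hgb' : (g : ℝ) ≤ b := by exact_mod_cast hgb
  have key := sum_UV S ((b : ℝ) ^ ((c : ℝ) - e)) ((b : ℝ) ^ ((c : ℝ) + e))
    ((b : ℝ) ^ (M - c) * ((b : ℝ) / g + 1) * (g * (b : ℝ) ^ (2 * c) / Δ))
    ((b : ℝ) ^ (M - c) * ((b : ℝ) / g + 1) * 2) hX (by positivity) (fun p hp => (hS p hp).2.2)
    (by positivity) (by positivity)
    (N b M) (fun p hp => by
      have hp1 : (1 : ℝ) ≤ p := hX.trans (hS p hp).2.2.1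
      have hp1' : 1 ≤ p := by exact_mod_cast hp1
      have := h2 b M (M - c) p g Δ hb hk hp1' (hS p hp).1 hg1 hgb hΔ1 (hS p hp).2.1
      rw [hexp] at this
      refine this.trans (le_of_eq ?_)
      have hp0 : (p : ℝ) ≠ 0 := by positivity
      field_simp)
  refine key.trans ?_
  have e1 : (b : ℝ) ^ (2 * c) = (b : ℝ) ^ ((c : ℝ) - e) * (b : ℝ) ^ ((c : ℝ) + e) := by
    rw [← Real.rpow_add hB, ← Real.rpow_natCast]; push_cast; congr 1; ring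
  have e2 : (b : ℝ) ^ (M - c) * (b : ℝ) ^ ((c : ℝ) + e) = (b : ℝ) ^ ((M : ℝ) + e) := by
    rw [← Real.rpow_natCast, Nat.cast_sub hc, ← Real.rpow_add hB]; congr 1; ring
  have e3 : (b : ℝ) ^ (M - c) * ((b : ℝ) / g + 1) * (g * (b : ℝ) ^ (2 * c) / Δ) * (2 / (b : ℝ) ^ ((c : ℝ) - e)) +
      (b : ℝ) ^ (M - c) * ((b : ℝ) / g + 1) * 2 * (b : ℝ) ^ ((c : ℝ) + e) =
      (b : ℝ) ^ ((M : ℝ) + e) * (2 * (b / Δ) + 2 * (b / g) + 2 * (g / Δ) + 2) := by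
    rw [e1, ← e2]
    have hXp : (b : ℝ) ^ ((c : ℝ) - e) ≠ 0 := by positivity
    field_simp
    ring
  rw [e3]
  have q0 : (1 : ℝ) ≤ (b : ℝ) ^ (3 / 4 : ℝ) := Real.one_le_rpow hB1 (by norm_num)
  have q1 : (b : ℝ) / Δ ≤ 2 * (b : ℝ) ^ (3 / 4 : ℝ) := by
    rw [div_le_iff₀ hΔ0]
    have h3 : (b : ℝ) ^ (3 / 4 : ℝ) * (b : ℝ) ^ (1 / 4 : ℝ) = b := by
      rw [← Real.rpow_add hB]; norm_num
    have h4 : (0 : ℝ) < (b : ℝ) ^ (3 / 4 : ℝ) := by positivity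
    nlinarith
  have q2 : (b : ℝ) / g ≤ 2 * (b : ℝ) ^ (3 / 4 : ℝ) := by
    have h5 : (b : ℝ) / g ≤ 2 * (b : ℝ) ^ (1 / 2 : ℝ) := by
      rw [div_le_iff₀ hg0]
      have h3 : (b : ℝ) ^ (1 / 2 : ℝ) * (b : ℝ) ^ (1 / 2 : ℝ) = b := by
        rw [← Real.rpow_add hB]; norm_num
      have h4 : (0 : ℝ) < (b : ℝ) ^ (1 / 2 : ℝ) := by positivity
      nlinarith
    have h6 : (b : ℝ) ^ (1 / 2 : ℝ) ≤ (b : ℝ) ^ (3 / 4 : ℝ) :=
      Real.rpow_le_rpow_of_exponent_le hB1 (by norm_num)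
    linarith
  have q3 : (g : ℝ) / Δ ≤ 2 * (b : ℝ) ^ (3 / 4 : ℝ) :=
    (div_le_div_of_nonneg_right hgb' hΔ0.le).trans q1
  have q4 : (b : ℝ) ^ ((M : ℝ) + e) * (b : ℝ) ^ (3 / 4 : ℝ) ≤ (b : ℝ) ^ ((M : ℝ) + 1 - e) := by
    rw [← Real.rpow_add hB]
    exact Real.rpow_le_rpow_of_exponent_le hB1 (by linarith)
  calc (b : ℝ) ^ ((M : ℝ) + e) * (2 * (b / Δ) + 2 * (b / g) + 2 * (g / Δ) + 2)
      ≤ (b : ℝ) ^ ((M : ℝ) + e) * (14 * (b : ℝ) ^ (3 / 4 : ℝ)) :=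
        mul_le_mul_of_nonneg_left (by linarith) (by positivity)
    _ = 14 * ((b : ℝ) ^ ((M : ℝ) + e) * (b : ℝ) ^ (3 / 4 : ℝ)) := by ring
    _ ≤ 14 * (b : ℝ) ^ ((M : ℝ) + 1 - e) := by linarith

/-- the range `b^(c-e) ≤ p ≤ b^(c+e)`, not `Far` -/
theorem range3 (h1 : S_SQ1) (h3 : S_SQ3) (b M c g Δ : ℕ) (e C : ℝ) (hb : 2 ≤ b) (hM : 1 ≤ M) (hc1 : 1 ≤ c)
    (hc : c ≤ M) (he : 0 < e) (he1 : e ≤ 1 / 32) (hg1 : 1 ≤ g) (hΔ1 : 1 ≤ Δ)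
    (hg : (g : ℝ) ≤ (b : ℝ) ^ (1 / 2 : ℝ)) (hΔ : (Δ : ℝ) ≤ (b : ℝ) ^ (1 / 4 : ℝ))
    (hC : (b.divisors.card : ℝ) ≤ C * (b : ℝ) ^ e) (hC0 : 0 ≤ C)
    (S : Finset ℕ)
    (hS : ∀ p ∈ S, p.Coprime b ∧ ¬ Far b g Δ p ∧ (b : ℝ) ^ ((c : ℝ) - e) ≤ p ∧ (p : ℝ) ≤ (b : ℝ) ^ ((c : ℝ) + e)) :
    ∑ p ∈ S, N b M p ≤ 36 * C ^ 2 * (b : ℝ) ^ ((M : ℝ) + 1 - e) := by
  classical
  have hB : (0 : ℝ) < b := by positivity
  have hB1 : (1 : ℝ) ≤ b := by exact_mod_cast (by omega : 1 ≤ b)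
  have hc1' : (1 : ℝ) ≤ c := by exact_mod_cast hc1
  have hX : 1 ≤ (b : ℝ) ^ ((c : ℝ) - e) := Real.one_le_rpow hB1 (by linarith)
  have hY : 1 ≤ (b : ℝ) ^ ((c : ℝ) + e) := Real.one_le_rpow hB1 (by linarith)
  have hg0 : (0 : ℝ) < g := by exact_mod_cast hg1
  have hΔ0 : (0 : ℝ) < Δ := by exact_mod_cast hΔ1
  have hexp : 2 * M + 1 - (M - c) = M + 1 + c := by omega
  -- each count
  have hN : ∀ p ∈ S, N b M p ≤ 2 * (b : ℝ) ^ ((M : ℝ) + 1 - c + 2 * e) := by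
    intro p hp
    obtain ⟨hpc, -, hp1, hp2⟩ := hS p hp
    have hpp : (1 : ℝ) ≤ p := hX.trans hp1
    have hp1' : 1 ≤ p := by exact_mod_cast hpp
    have h4 := h1 b M (M - c) p hb hM (by omega) hp1' hpc
    rw [hexp] at h4
    have e1 : (b : ℝ) ^ (M + 1 + c) = (b : ℝ) ^ ((M : ℝ) + 1 + c) := by
      rw [← Real.rpow_natCast]; push_cast; rfl
    have e2 : (b : ℝ) ^ (M - c) = (b : ℝ) ^ ((M : ℝ) - c) := by
      rw [← Real.rpow_natCast, Nat.cast_sub hc]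
    rw [e1, e2] at h4
    have h5 : ((b : ℝ) ^ ((c : ℝ) - e)) ^ 2 ≤ (p : ℝ) ^ 2 := pow_le_pow_left₀ (by positivity) hp1 2
    have h6 : (b : ℝ) ^ ((M : ℝ) + 1 + c) / (p : ℝ) ^ 2 ≤ (b : ℝ) ^ ((M : ℝ) + 1 - c + 2 * e) := by
      refine (div_le_div_of_nonneg_left (by positivity) (by positivity) h5).trans (le_of_eq ?_)
      rw [div_eq_iff (by positivity), pow_two, ← Real.rpow_add hB, ← Real.rpow_add hB]
      congr 1
      ring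
    have h7 : (b : ℝ) ^ ((M : ℝ) - c) ≤ (b : ℝ) ^ ((M : ℝ) + 1 - c + 2 * e) :=
      Real.rpow_le_rpow_of_exponent_le hB1 (by linarith)
    unfold N
    linarith
  -- the number
  have hcard : (S.card : ℝ) ≤ 18 * C ^ 2 * (b : ℝ) ^ ((c : ℝ) - 1 / 4 + 3 * e) := by
    have hsub : S ⊆ (range (⌊(b : ℝ) ^ ((c : ℝ) + e)⌋₊ + 1)).filter fun p => p.Coprime b ∧ ¬ Far b g Δ p := by
      intro p hp
      obtain ⟨hpc, hpf, hp1, hp2⟩ := hS p hp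
      rw [mem_filter, mem_range]
      exact ⟨Nat.lt_succ_of_le (Nat.le_floor hp2), hpc, hpf⟩
    have h4 : (S.card : ℝ) ≤ _ := (Nat.cast_le.2 (card_le_card hsub)).trans
      (h3 b g Δ (⌊(b : ℝ) ^ ((c : ℝ) + e)⌋₊ + 1) hb hg1 hΔ1)
    have h5 : ((⌊(b : ℝ) ^ ((c : ℝ) + e)⌋₊ + 1 : ℕ) : ℝ) / b + 1 ≤ 3 * (b : ℝ) ^ ((c : ℝ) - 1 + e) := by
      have h6 : ((⌊(b : ℝ) ^ ((c : ℝ) + e)⌋₊ : ℕ) : ℝ) ≤ (b : ℝ) ^ ((c : ℝ) + e) := Nat.floor_le (by positivity)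
      have h7 : (b : ℝ) ^ ((c : ℝ) + e) = (b : ℝ) ^ ((c : ℝ) - 1 + e) * b := by
        conv_rhs => rw [← Real.rpow_one (b : ℝ), ← Real.rpow_mul hB.le, ← Real.rpow_add hB]
        congr 1; ring
      have h8 : 1 ≤ (b : ℝ) ^ ((c : ℝ) - 1 + e) := Real.one_le_rpow hB1 (by linarith)
      have h9 : ((⌊(b : ℝ) ^ ((c : ℝ) + e)⌋₊ + 1 : ℕ) : ℝ) / b ≤ 2 * (b : ℝ) ^ ((c : ℝ) - 1 + e) := by
        rw [div_le_iff₀ hB]
        push_cast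
        rw [mul_assoc, ← h7]
        linarith
      linarith
    have h6 : (Δ : ℝ) * (2 * g + Δ) ≤ 3 * (b : ℝ) ^ (3 / 4 : ℝ) := by
      have h7 : (b : ℝ) ^ (1 / 4 : ℝ) ≤ (b : ℝ) ^ (1 / 2 : ℝ) :=
        Real.rpow_le_rpow_of_exponent_le hB1 (by norm_num)
      have h8 : (2 * (g : ℝ) + Δ) ≤ 3 * (b : ℝ) ^ (1 / 2 : ℝ) := by linarith
      have h9 : (b : ℝ) ^ (1 / 4 : ℝ) * (b : ℝ) ^ (1 / 2 : ℝ) = (b : ℝ) ^ (3 / 4 : ℝ) := by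
        rw [← Real.rpow_add hB]; norm_num
      calc (Δ : ℝ) * (2 * g + Δ) ≤ (b : ℝ) ^ (1 / 4 : ℝ) * (3 * (b : ℝ) ^ (1 / 2 : ℝ)) :=
            mul_le_mul hΔ h8 (by positivity) (by positivity)
        _ = 3 * (b : ℝ) ^ (3 / 4 : ℝ) := by rw [← h9]; ring
    have h7 : 2 * (b.divisors.card : ℝ) ^ 2 ≤ 2 * C ^ 2 * (b : ℝ) ^ (2 * e) := by
      have h8 : (b.divisors.card : ℝ) ^ 2 ≤ (C * (b : ℝ) ^ e) ^ 2 := pow_le_pow_left₀ (by positivity) hC 2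
      have h9 : (C * (b : ℝ) ^ e) ^ 2 = C ^ 2 * (b : ℝ) ^ (2 * e) := by
        rw [mul_pow, ← Real.rpow_natCast ((b : ℝ) ^ e), ← Real.rpow_mul hB.le]
        congr 2
        push_cast
        ring
      linarith
    calc (S.card : ℝ) ≤ _ := h4
      _ ≤ (3 * (b : ℝ) ^ ((c : ℝ) - 1 + e)) * (3 * (b : ℝ) ^ (3 / 4 : ℝ)) * (2 * C ^ 2 * (b : ℝ) ^ (2 * e)) := by
          apply mul_le_mul _ h7 (by positivity) (by positivity)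
          exact mul_le_mul h5 h6 (by positivity) (by positivity)
      _ = 18 * C ^ 2 * ((b : ℝ) ^ ((c : ℝ) - 1 + e) * (b : ℝ) ^ (3 / 4 : ℝ) * (b : ℝ) ^ (2 * e)) := by ring
      _ = 18 * C ^ 2 * (b : ℝ) ^ ((c : ℝ) - 1 / 4 + 3 * e) := by
          rw [← Real.rpow_add hB, ← Real.rpow_add hB]
          congr 2
          ring
  calc ∑ p ∈ S, N b M p ≤ ∑ p ∈ S, 2 * (b : ℝ) ^ ((M : ℝ) + 1 - c + 2 * e) := sum_le_sum hN
    _ = S.card * (2 * (b : ℝ) ^ ((M : ℝ) + 1 - c + 2 * e)) := by rw [sum_const, nsmul_eq_mul]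
    _ ≤ (18 * C ^ 2 * (b : ℝ) ^ ((c : ℝ) - 1 / 4 + 3 * e)) * (2 * (b : ℝ) ^ ((M : ℝ) + 1 - c + 2 * e)) :=
        mul_le_mul_of_nonneg_right hcard (by positivity)
    _ = 36 * C ^ 2 * ((b : ℝ) ^ ((c : ℝ) - 1 / 4 + 3 * e) * (b : ℝ) ^ ((M : ℝ) + 1 - c + 2 * e)) := by ring
    _ ≤ 36 * C ^ 2 * (b : ℝ) ^ ((M : ℝ) + 1 - e) := by
        apply mul_le_mul_of_nonneg_left _ (by positivity)
        rw [← Real.rpow_add hB]
        exact Real.rpow_le_rpow_of_exponent_le hB1 (by linarith)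

/-- the position of `p` -/
theorem locate (B : ℝ) (e x : ℝ) (n : ℕ) (h0 : B ^ e ≤ x) (h1 : x ≤ B ^ ((n : ℝ) + 1 - e)) :
    (∃ c : ℕ, c ≤ n ∧ B ^ ((c : ℝ) + e) ≤ x ∧ x ≤ B ^ ((c : ℝ) + 1 - e)) ∨
    ∃ c : ℕ, 1 ≤ c ∧ c ≤ n ∧ B ^ ((c : ℝ) - e) ≤ x ∧ x ≤ B ^ ((c : ℝ) + e) := by
  induction n with
  | zero => left; exact ⟨0, le_rfl, by simpa using h0, h1⟩
  | succ n ih =>
    by_cases h2 : B ^ (((n + 1 : ℕ) : ℝ) + e) ≤ x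
    · left; exact ⟨n + 1, le_rfl, h2, h1⟩
    · by_cases h3 : B ^ (((n + 1 : ℕ) : ℝ) - e) ≤ x
      · right; exact ⟨n + 1, by omega, le_rfl, h3, (not_le.1 h2).le⟩
      · have h4 : x ≤ B ^ ((n : ℝ) + 1 - e) := by
          push_cast at h3
          exact (not_le.1 h3).le
        rcases ih h4 with ⟨c, hc, h5⟩ | ⟨c, hc1, hc, h5⟩
        · left; exact ⟨c, by omega, h5⟩
        · right; exact ⟨c, hc1, by omega, h5⟩

theorem half_floor (x : ℝ) (hx : 1 ≤ x) : x / 2 ≤ ⌊x⌋₊ ∧ 1 ≤ ⌊x⌋₊ := by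
  have h1 : 1 ≤ ⌊x⌋₊ := Nat.le_floor (by exact_mod_cast hx)
  have h2 : x < ⌊x⌋₊ + 1 := Nat.lt_floor_add_one x
  have h3 : (1 : ℝ) ≤ ⌊x⌋₊ := by exact_mod_cast h1
  exact ⟨by linarith, h1⟩

/-- module SQ -/
theorem t_SQ (h0 : S_SQ0) (h1 : S_SQ1) (h2 : S_SQ2) (h3 : S_SQ3) (hD : S_DIG) : S_SQ := by
  classical
  intro M hM θ hθ
  set e : ℝ := min θ (1 / 32) with he
  have he0 : 0 < e := lt_min hθ (by norm_num)
  have heθ : e ≤ θ := min_le_left _ _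
  have he1 : e ≤ 1 / 32 := min_le_right _ _
  obtain ⟨C0, hC0⟩ := h0 M θ hM hθ
  obtain ⟨C, hC1, hC⟩ := Pool.Agent.H505R2.div_bound he0
  have hev := ((tendsto_rpow_atTop (half_pos he0)).comp tendsto_natCast_atTop_atTop).eventually_ge_atTop
    (|C0| + ((M + 1 : ℕ) : ℝ) * 3 + (M * 14 + M * (36 * C ^ 2)))
  obtain ⟨b1, hb1⟩ := Filter.eventually_atTop.1 hev
  refine ⟨e / 2, half_pos he0, max b1 2, fun b hb => ?_⟩
  have hb2 : 2 ≤ b := le_of_max_le_right hb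
  have hK := hb1 b (le_of_max_le_left hb)
  simp only [Function.comp_apply] at hK
  have hB : (0 : ℝ) < b := by positivity
  have hB1 : (1 : ℝ) ≤ b := by exact_mod_cast (by omega : 1 ≤ b)
  set g : ℕ := ⌊(b : ℝ) ^ (1 / 2 : ℝ)⌋₊ with hg
  set Δ : ℕ := ⌊(b : ℝ) ^ (1 / 4 : ℝ)⌋₊ with hΔ
  obtain ⟨hg2, hg1⟩ := half_floor ((b : ℝ) ^ (1 / 2 : ℝ)) (Real.one_le_rpow hB1 (by norm_num))
  obtain ⟨hΔ2, hΔ1⟩ := half_floor ((b : ℝ) ^ (1 / 4 : ℝ)) (Real.one_le_rpow hB1 (by norm_num))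
  have hg3 : (g : ℝ) ≤ (b : ℝ) ^ (1 / 2 : ℝ) := Nat.floor_le (by positivity)
  have hΔ3 : (Δ : ℝ) ≤ (b : ℝ) ^ (1 / 4 : ℝ) := Nat.floor_le (by positivity)
  have hgb : g ≤ b := by
    have h4 : (b : ℝ) ^ (1 / 2 : ℝ) ≤ (b : ℝ) ^ (1 : ℝ) := Real.rpow_le_rpow_of_exponent_le hB1 (by norm_num)
    rw [Real.rpow_one] at h4
    exact_mod_cast hg3.trans h4
  let T : Finset ℕ := range (b ^ (M + 1))
  let S1 : ℕ → Finset ℕ := fun c => T.filter fun p =>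
    p.Coprime b ∧ (b : ℝ) ^ ((c : ℝ) + e) ≤ p ∧ (p : ℝ) ≤ (b : ℝ) ^ ((c : ℝ) + 1 - e)
  let S2 : ℕ → Finset ℕ := fun c => T.filter fun p =>
    p.Coprime b ∧ Far b g Δ p ∧ (b : ℝ) ^ ((c : ℝ) - e) ≤ p ∧ (p : ℝ) ≤ (b : ℝ) ^ ((c : ℝ) + e)
  let S3 : ℕ → Finset ℕ := fun c => T.filter fun p =>
    p.Coprime b ∧ ¬ Far b g Δ p ∧ (b : ℝ) ^ ((c : ℝ) - e) ≤ p ∧ (p : ℝ) ≤ (b : ℝ) ^ ((c : ℝ) + e)
  let F : Finset ℕ → Finset (Fin (M + 1) → ℕ) := fun S => (A b M).filter fun a => ∃ p ∈ S, p ^ 2 ∣ pal b M a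
  let F0 : Finset (Fin (M + 1) → ℕ) :=
    (A b M).filter fun a => ∃ p : ℕ, p.Prime ∧ p ∣ b ∧ (b : ℝ) ^ θ ≤ p ∧ p ∣ pal b M a
  set Z : ℝ := (b : ℝ) ^ ((M : ℝ) + 1 - e) with hZ
  have hZ0 : 0 ≤ Z := by positivity
  have hF1 : ∀ c ∈ range (M + 1), ((F (S1 c)).card : ℝ) ≤ 3 * Z := by
    intro c hc
    rw [mem_range] at hc
    refine (union_bd b M (S1 c) (fun a => ∃ p ∈ S1 c, p ^ 2 ∣ pal b M a) fun a _ h => h).trans ?_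
    exact range1 h1 b M c e hb2 hM (by omega) he0 (S1 c) fun p hp => (mem_filter.1 hp).2
  have hF2 : ∀ c ∈ Icc 1 M, ((F (S2 c)).card : ℝ) ≤ 14 * Z := by
    intro c hc
    rw [mem_Icc] at hc
    refine (union_bd b M (S2 c) (fun a => ∃ p ∈ S2 c, p ^ 2 ∣ pal b M a) fun a _ h => h).trans ?_
    exact range2 h2 b M c g Δ e hb2 hM hc.1 hc.2 he0 he1 hg1 hgb hΔ1 hg2 hΔ2 (S2 c)
      fun p hp => (mem_filter.1 hp).2
  have hF3 : ∀ c ∈ Icc 1 M, ((F (S3 c)).card : ℝ) ≤ 36 * C ^ 2 * Z := by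
    intro c hc
    rw [mem_Icc] at hc
    refine (union_bd b M (S3 c) (fun a => ∃ p ∈ S3 c, p ^ 2 ∣ pal b M a) fun a _ h => h).trans ?_
    exact range3 h1 h3 b M c g Δ e C hb2 hM hc.1 hc.2 he0 he1 hg1 hΔ1 hg3 hΔ3 (hC b (by omega)) (by linarith)
      (S3 c) fun p hp => (mem_filter.1 hp).2
  have hF0 : (F0.card : ℝ) ≤ |C0| * Z := by
    refine (hC0 b hb2).trans ?_
    have h4 : (b : ℝ) ^ ((M : ℝ) + 1 - θ) ≤ Z := Real.rpow_le_rpow_of_exponent_le hB1 (by linarith)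
    calc C0 * (b : ℝ) ^ ((M : ℝ) + 1 - θ) ≤ |C0| * (b : ℝ) ^ ((M : ℝ) + 1 - θ) :=
          mul_le_mul_of_nonneg_right (le_abs_self _) (by positivity)
      _ ≤ |C0| * Z := mul_le_mul_of_nonneg_left h4 (abs_nonneg _)
  -- the cover
  have hcov : ((A b M).filter fun a => ∃ p : ℕ, p.Prime ∧ (b : ℝ) ^ θ ≤ p ∧ p ^ 2 ∣ pal b M a) ⊆
      F0 ∪ ((range (M + 1)).biUnion (fun c => F (S1 c)) ∪
        ((Icc 1 M).biUnion (fun c => F (S2 c)) ∪ (Icc 1 M).biUnion (fun c => F (S3 c)))) := by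
    intro a ha
    rw [mem_filter] at ha
    obtain ⟨haA, p, hp, hpθ, hpd⟩ := ha
    by_cases hpb : p ∣ b
    · exact mem_union_left _ (mem_filter.2 ⟨haA, p, hp, hpb, hpθ, (dvd_pow_self p two_ne_zero).trans hpd⟩)
    · apply mem_union_right
      have hcop : p.Coprime b := (Nat.Prime.coprime_iff_not_dvd hp).2 hpb
      have hA : ∀ j, 1 ≤ a j ∧ a j < b := by
        intro j
        have := (Fintype.mem_piFinset.1 haA) j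
        exact mem_Ico.1 this
      obtain ⟨-, hlt, hge⟩ := hD b M hb2 hM a fun j => (hA j).2
      have hpos : 0 < pal b M a := lt_of_lt_of_le (by positivity) (hge (hA 0).1)
      have hple : p ^ 2 < b ^ (2 * M + 1) := lt_of_le_of_lt (Nat.le_of_dvd hpos hpd) hlt
      have hpT : p ∈ T := by
        rw [mem_range]
        have h4 : p ^ 2 < (b ^ (M + 1)) ^ 2 := by
          refine lt_of_lt_of_le hple ?_
          rw [← pow_mul]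
          exact Nat.pow_le_pow_right (by omega) (by omega)
        exact lt_of_pow_lt_pow_left₀ 2 (by positivity) h4
      have hpM : (p : ℝ) ≤ (b : ℝ) ^ ((M : ℝ) + 1 - e) := by
        have h4 : (p : ℝ) ^ 2 ≤ ((b : ℝ) ^ ((M : ℝ) + 1 - e)) ^ 2 := by
          have h5 : ((p : ℝ)) ^ 2 ≤ (b : ℝ) ^ (2 * M + 1) := by exact_mod_cast hple.le
          refine h5.trans ?_
          rw [← Real.rpow_natCast, ← Real.rpow_natCast ((b : ℝ) ^ ((M : ℝ) + 1 - e)), ← Real.rpow_mul hB.le]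
          apply Real.rpow_le_rpow_of_exponent_le hB1
          push_cast
          linarith
        exact (pow_le_pow_iff_left₀ (by positivity) (by positivity) two_ne_zero).1 h4
      have hpe : (b : ℝ) ^ e ≤ p := (Real.rpow_le_rpow_of_exponent_le hB1 heθ).trans hpθ
      rcases locate (b : ℝ) e p M hpe hpM with ⟨c, hc, h5, h6⟩ | ⟨c, hc1, hc, h5, h6⟩
      · apply mem_union_left
        rw [mem_biUnion]
        exact ⟨c, mem_range.2 (by omega), mem_filter.2 ⟨haA, p, mem_filter.2 ⟨hpT, hcop, h5, h6⟩, hpd⟩⟩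
      · apply mem_union_right
        by_cases hf : Far b g Δ p
        · apply mem_union_left
          rw [mem_biUnion]
          exact ⟨c, mem_Icc.2 ⟨hc1, hc⟩, mem_filter.2 ⟨haA, p, mem_filter.2 ⟨hpT, hcop, hf, h5, h6⟩, hpd⟩⟩
        · apply mem_union_right
          rw [mem_biUnion]
          exact ⟨c, mem_Icc.2 ⟨hc1, hc⟩, mem_filter.2 ⟨haA, p, mem_filter.2 ⟨hpT, hcop, hf, h5, h6⟩, hpd⟩⟩
  have hc1 := card_le_card hcov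
  have hc2 : (((A b M).filter fun a => ∃ p : ℕ, p.Prime ∧ (b : ℝ) ^ θ ≤ p ∧ p ^ 2 ∣ pal b M a).card : ℝ) ≤
      (F0.card : ℝ) + (∑ c ∈ range (M + 1), ((F (S1 c)).card : ℝ) +
        (∑ c ∈ Icc 1 M, ((F (S2 c)).card : ℝ) + ∑ c ∈ Icc 1 M, ((F (S3 c)).card : ℝ))) := by
    refine (Nat.cast_le.2 (hc1.trans ((card_union_le _ _).trans (add_le_add_right ((card_union_le _ _).trans
      (add_le_add card_biUnion_le ((card_union_le _ _).trans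
        (add_le_add card_biUnion_le card_biUnion_le)))) _)))).trans (le_of_eq ?_)
    push_cast
    rfl
  have hs1 : ∑ c ∈ range (M + 1), ((F (S1 c)).card : ℝ) ≤ ((M + 1 : ℕ) : ℝ) * (3 * Z) := by
    refine (sum_le_sum hF1).trans (le_of_eq ?_)
    rw [sum_const, card_range, nsmul_eq_mul]
  have hs2 : ∑ c ∈ Icc 1 M, ((F (S2 c)).card : ℝ) ≤ (M : ℝ) * (14 * Z) := by
    refine (sum_le_sum hF2).trans (le_of_eq ?_)
    rw [sum_const, Nat.card_Icc, nsmul_eq_mul, Nat.add_sub_cancel]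
  have hs3 : ∑ c ∈ Icc 1 M, ((F (S3 c)).card : ℝ) ≤ (M : ℝ) * (36 * C ^ 2 * Z) := by
    refine (sum_le_sum hF3).trans (le_of_eq ?_)
    rw [sum_const, Nat.card_Icc, nsmul_eq_mul, Nat.add_sub_cancel]
  have hfin : (|C0| + ((M + 1 : ℕ) : ℝ) * 3 + (M * 14 + M * (36 * C ^ 2))) * Z ≤
      (b : ℝ) ^ ((M : ℝ) + 1 - e / 2) := by
    calc (|C0| + ((M + 1 : ℕ) : ℝ) * 3 + (M * 14 + M * (36 * C ^ 2))) * Z ≤ (b : ℝ) ^ (e / 2) * Z :=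
          mul_le_mul_of_nonneg_right hK hZ0
      _ = (b : ℝ) ^ ((M : ℝ) + 1 - e / 2) := by
          rw [hZ, ← Real.rpow_add hB]
          congr 1
          ring
  refine le_trans ?_ hfin
  refine le_trans ?_ ((hc2.trans (add_le_add hF0 (add_le_add hs1 (add_le_add hs2 hs3)))).trans (le_of_eq (by ring)))
  exact le_of_eq (by congr)

end Pool.Agent.Zk55.FD46
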